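import Pool.Agent.helper7.AL.Spec

/-! Row ba:M3 (project AL, MP_bf63dc_nt): the finite check modulo 3 -/

set_option autoImplicit false

namespace Pool.Agent.AL

open Finset Pool.Agent.helper85.FC Pool.Agent.helper11.MK

/-- `Loc` in `ZMod 3` -/
def M3_Z (A B U C : ZMod 3) : Bool :=
  decide (∃ h h' : ZMod 3, C = A * h - B * h' ∧ h ≠ 0 ∧ h + U ≠ 0 ∧ h' ≠ 0 ∧ h' + U ≠ 0)

theorem M3_loc (a b : ℕ) (u c : ℤ) : Loc a b u 3 c ↔ M3_Z (a : ZMod 3) (b : ZMod 3) (u : ZMod 3) (c : ZMod 3) = true := by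
  have hd : ∀ x : ℤ, ((3 : ℕ) : ℤ) ∣ x ↔ ((x : ℤ) : ZMod 3) = 0 := fun x => (ZMod.intCast_zmod_eq_zero_iff_dvd x 3).symm
  unfold Loc M3_Z
  rw [decide_eq_true_iff]
  constructor
  · rintro ⟨h, h', h1, h2, h3, h4, h5⟩
    rw [hd] at h1 h2 h3 h4 h5
    push_cast at h1 h2 h3 h4 h5
    exact ⟨(h : ZMod 3), (h' : ZMod 3), sub_eq_zero.1 h1, h2, h3, h4, h5⟩
  · rintro ⟨h, h', h1, h2, h3, h4, h5⟩
    obtain ⟨x, rfl⟩ := ZMod.intCast_surjective h
    obtain ⟨x', rfl⟩ := ZMod.intCast_surjective h'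
    refine ⟨x, x', ?_, ?_, ?_, ?_, ?_⟩
    · rw [hd]
      push_cast
      exact sub_eq_zero.2 h1
    · rw [hd]; exact h2
    · rw [hd]; push_cast; exact h3
    · rw [hd]; exact h4
    · rw [hd]; push_cast; exact h5

theorem M3_check : ∀ A B U : ZMod 3, ¬ (A = 0 ∧ B = 0) → ∃ m : Fin 5, 2 ≤ m.val ∧
    m.val ≤ 2 * ((range 3).filter fun r : ℕ => M3_Z A B U (r : ZMod 3) = true).card ∧
    ∀ C : ZMod 3, (((range 2) ×ˢ (range 2)).filter fun t : ℕ × ℕ =>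
      M3_Z A B U (C - ((t.1 : ZMod 3) * (A * U) - (t.2 : ZMod 3) * (B * U))) = true).card ≤ m.val := by
  decide +kernel

open Classical in
theorem M3 : M3_stmt := by
  intro a b u₀ hab
  have hne : ¬ ((a : ZMod 3) = 0 ∧ (b : ZMod 3) = 0) := by
    rintro ⟨h1, h2⟩
    rw [ZMod.natCast_eq_zero_iff] at h1 h2
    have := Nat.dvd_gcd h1 h2
    rw [Nat.Coprime] at hab
    rw [hab] at this
    omega
  obtain ⟨m, h2, h3, h4⟩ := M3_check (a : ZMod 3) (b : ZMod 3) (u₀ : ZMod 3) hne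
  refine ⟨m.val, h2, ?_, fun c => ?_⟩
  · refine h3.trans (le_of_eq ?_)
    congr 1
    refine congrArg Finset.card (Finset.filter_congr fun r _ => ?_)
    rw [M3_loc]
    push_cast
    rfl
  · refine le_trans (le_of_eq ?_) (h4 (c : ZMod 3))
    refine congrArg Finset.card (Finset.filter_congr fun t _ => ?_)
    rw [M3_loc]
    push_cast
    rfl

end Pool.Agent.AL
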